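import Mathlib

/-! Spec of the pieces for MP_1aae89_al (helper10). Mathlib only. -/

namespace Pool.Agent.K4H10.PR
open scoped BigOperators Classical

/-- the cyclotomic field `ℚ(e^{2πi/n})` inside `ℂ` -/
noncomputable def cyc (n : ℕ) : IntermediateField ℚ ℂ :=
  IntermediateField.adjoin ℚ {Complex.exp (2 * Real.pi * Complex.I / n)}

/-- the field generated by the values of `χ` -/
noncomputable def valueField {G : Type} (χ : G → ℂ) : IntermediateField ℚ ℂ :=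
  IntermediateField.adjoin ℚ (Set.range χ)

/-- the conductor: the least `n ≥ 1` with `ℚ(χ) ⊆ ℚ_n` -/
noncomputable def conductor {G : Type} (χ : G → ℂ) : ℕ :=
  sInf {n | 0 < n ∧ valueField χ ≤ cyc n}

/-- the `p`-rationality level -/
noncomputable def lev {G : Type} (p : ℕ) (χ : G → ℂ) : ℕ := padicValNat p (conductor χ)

/-- the induced class function -/
noncomputable def ind {G : Type} [Group G] [Fintype G] (M : Subgroup G) (ψ : M → ℂ) (x : G) : ℂ :=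
  (Fintype.card M : ℂ)⁻¹ * ∑ g : G, if h : g⁻¹ * x * g ∈ M then ψ ⟨g⁻¹ * x * g, h⟩ else 0

noncomputable instance homFintype {P : Type} [Group P] [Finite P] : Fintype (P →* ℂˣ) := by
  haveI : NeZero (Nat.card P) := ⟨Nat.card_pos.ne'⟩
  haveI : Finite (P →* ℂˣ) := by
    refine Finite.of_injective (β := P → rootsOfUnity (Nat.card P) ℂ)
      (fun lam x => ⟨lam x, by rw [mem_rootsOfUnity, ← map_pow, pow_card_eq_one', map_one]⟩) ?_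
    intro a b h
    refine MonoidHom.ext fun x => ?_
    have := congrFun h x
    exact congrArg Subtype.val this
  exact Fintype.ofFinite _

/-- [GAL] -/
def StGal : Prop := ∀ (p a N c : ℕ), p.Prime → 2 ≤ a → 0 < c → ¬ p ^ a ∣ c →
  ∀ {ι : Type} [Fintype ι] (v ζ : ι → ℂ) (z : ℚ), (∀ i, v i ∈ cyc c) → (∀ i, ζ i ^ p ^ N = 1) →
    (∑ i, v i * ζ i) = z → (∑ i, v i * ζ i ^ (1 + p ^ (a - 1))) = z

/-- [CON] -/
def StCon : Prop := ∀ (m n : ℕ), 0 < m → 0 < n → cyc m ⊓ cyc n ≤ cyc (Nat.gcd m n)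

/-- [INV] -/
def StInv : Prop := ∀ (p n : ℕ), p.Prime → ∀ {α : Type} [Fintype α] (τ : Equiv.Perm α),
  τ ^ (p ^ n) = 1 → ∀ F : α → ℤ, (∀ x, F (τ x) = F x) →
    (p : ℤ) ∣ ∑ x, if τ x ≠ x then F x else 0

/-- [EXT] a nontrivial homomorphism of order `p` that is trivial on a proper subgroup -/
def StExt : Prop := ∀ (p : ℕ) (_ : p.Prime) {P : Type} [Group P] [Finite P] (_ : IsPGroup p P)
  (Q : Subgroup P), Q ≠ ⊤ → ∃ μ : P →* ℂˣ, μ ≠ 1 ∧ μ ^ p = 1 ∧ ∀ x ∈ Q, μ x = 1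

/-- [TRANS] -/
def StTrans : Prop := ∀ (p a : ℕ) (_ : p.Prime) (_ : 2 ≤ a) {P : Type} [Group P] [Finite P]
  (_ : IsPGroup p P) (Q : Subgroup P), Q ≠ ⊤ → ∀ n : (P →* ℂˣ) → ℤ,
  (∀ lam lam' : P →* ℂˣ, (∀ x ∈ Q, lam x = lam' x) → n lam = n lam') →
    (p : ℤ) ∣ ∑ lam : P →* ℂˣ, if lam ^ p ^ (a - 1) ≠ 1 then n lam else 0

/-- [POW] -/
def StPow : Prop := ∀ (p a : ℕ) (_ : p.Prime) (_ : 2 ≤ a) {P : Type} [Group P] [Finite P]
  (_ : IsPGroup p P) (F : (P →* ℂˣ) → ℤ), (∀ lam, F (lam ^ (1 + p ^ (a - 1))) = F lam) →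
    (p : ℤ) ∣ ∑ lam : P →* ℂˣ, if lam ^ p ^ (a - 1) ≠ 1 then F lam else 0

/-- [ORB] sums over orbits -/
def StOrb : Prop := ∀ (p : ℕ) (_ : p.Prime) {P : Type} [Group P] [Finite P] (_ : IsPGroup p P)
  {X : Type} [Fintype X] [MulAction P X] (t : X → ℤ) (_ : ∀ (x : P) (c : X), t (x • c) = t c)
  (s : ℤ) (_ : ∀ c ∈ MulAction.fixedPoints P X, t c = s)
  (_ : ∀ c ∉ MulAction.fixedPoints P X, (p : ℤ) ∣ t c),
  ∃ T : ℤ, ((T : ℂ) = ∑ c : X, (Nat.card (MulAction.orbit P c) : ℂ)⁻¹ * (t c : ℂ)) ∧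
    (p : ℤ) ∣ T - (Fintype.card X : ℤ) * s

/-- [MUL] multiplicity of a linear character in a representation -/
def StMul : Prop := ∀ {Q : Type} [Group Q] [Fintype Q] {V : Type} [AddCommGroup V] [Module ℂ V]
  [FiniteDimensional ℂ V] (ρ : Q →* (V →ₗ[ℂ] V)) (lam : Q →* ℂˣ),
  (Fintype.card Q : ℂ)⁻¹ * ∑ x : Q, LinearMap.trace ℂ V (ρ x) * ((lam x)⁻¹ : ℂˣ) =
    (Module.finrank ℂ (⨅ x : Q, LinearMap.ker (ρ x - ((lam x : ℂˣ) : ℂ) • LinearMap.id) :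
      Submodule ℂ V) : ℂ)

/-- [TRI] transitivity of induction -/
def StTri : Prop := ∀ {G : Type} [Group G] [Fintype G] (M : Subgroup G) (H : Subgroup M)
  (μ : H → ℂ) (x : G),
  ind M (ind H μ) x = (Fintype.card H : ℂ)⁻¹ *
    ∑ g : G, if h : ∃ h : g⁻¹ * x * g ∈ M, (⟨g⁻¹ * x * g, h⟩ : M) ∈ H then
      μ ⟨⟨g⁻¹ * x * g, h.1⟩, h.2⟩ else 0

/-- the data for [FIX] and the main theorem -/
def Integral {M : Type} [Group M] (ψ : M → ℂ) : Prop :=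
  ∀ (Q : Subgroup M) [Fintype Q] (lam : Q →* ℂˣ),
    ∃ z : ℤ, (Fintype.card Q : ℂ)⁻¹ * ∑ x : Q, ψ x * ((lam x)⁻¹ : ℂˣ) = z

/-- [FIX] -/
def StFix : Prop := ∀ (p : ℕ) (_ : p.Prime) {G : Type} [Group G] [Fintype G] (M P : Subgroup G)
  (hPM : P ≤ M) (_ : IsPGroup p P) (_ : ¬ p ∣ P.relIndex M)
  (ψ : M → ℂ) (_ : ∀ x y : M, ψ (y * x * y⁻¹) = ψ x) (k : ℕ)
  (g : G) (hg : ∀ x ∈ P, g⁻¹ * x * g ∈ M),
  ∑ lam : P →* ℂˣ, (if lam ^ k ≠ 1 then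
      ∑ x : P, ψ ⟨g⁻¹ * x * g, hg x x.2⟩ * ((lam x)⁻¹ : ℂˣ) else 0) =
  ∑ lam : P →* ℂˣ, (if lam ^ k ≠ 1 then
      ∑ x : P, ψ ⟨x, hPM x.2⟩ * ((lam x)⁻¹ : ℂˣ) else 0)

end Pool.Agent.K4H10.PR
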