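import Mathlib
import Pool.Agent.K4H10.PR.Spec

/-! The intersection of two cyclotomic fields, divisibility of conductors. -/

namespace Pool.Agent.K4H10.PR

open IntermediateField

lemma totient_lcm_gcd (m n : ℕ) (hm : 0 < m) :
    (m.lcm n).totient * (m.gcd n).totient = m.totient * n.totient := by
  have h1 := Nat.totient_gcd_mul_totient_mul m n
  have h2 := Nat.totient_gcd_mul_totient_mul (m.gcd n) (m.lcm n)
  rw [Nat.gcd_mul_lcm, Nat.gcd_eq_left ((Nat.gcd_dvd_left m n).trans (Nat.dvd_lcm_left m n)), h1] at h2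
  have hg : 0 < m.gcd n := Nat.gcd_pos_of_pos_left _ hm
  have := Nat.eq_of_mul_eq_mul_right hg h2
  rw [this, mul_comm]

section General
variable {F L : Type} [Field F] [Field L] [Algebra F L]

/-- natural irrationalities in terms of degrees -/
lemma finrank_sup_inf (A B : IntermediateField F L) [FiniteDimensional F A] [FiniteDimensional F B]
    [IsGalois F A] :
    Module.finrank F ↥(A ⊔ B) * Module.finrank F ↥(A ⊓ B) = Module.finrank F A * Module.finrank F B := by
  have hA : A ⊓ B ≤ A := inf_le_left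
  have hB : A ⊓ B ≤ B := inf_le_right
  have hAB : A ⊓ B ≤ A ⊔ B := inf_le_sup
  have key : relfinrank (A ⊓ B) (A ⊔ B) = relfinrank (A ⊓ B) A * relfinrank (A ⊓ B) B := by
    rw [relfinrank_eq_finrank_of_le hA, relfinrank_eq_finrank_of_le hB, relfinrank_eq_finrank_of_le hAB]
    have h1 : extendScalars hA ⊓ extendScalars hB = ⊥ := by
      rw [extendScalars_inf]
      exact extendScalars_self (A ⊓ B)
    have h2 : extendScalars hA ⊔ extendScalars hB = extendScalars hAB := by
      rw [extendScalars_sup]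
    have : IsScalarTower F ↥(A ⊓ B) ↥(extendScalars hA) := inferInstance
    have : IsGalois F ↥(extendScalars hA) := ‹IsGalois F A›
    have : FiniteDimensional F ↥(extendScalars hA) := ‹FiniteDimensional F A›
    have : FiniteDimensional F ↥(extendScalars hB) := ‹FiniteDimensional F B›
    have : IsGalois ↥(A ⊓ B) ↥(extendScalars hA) := IsGalois.tower_top_of_isGalois F _ _
    have : FiniteDimensional ↥(A ⊓ B) ↥(extendScalars hA) := FiniteDimensional.right F _ _
    have : FiniteDimensional ↥(A ⊓ B) ↥(extendScalars hB) := FiniteDimensional.right F _ _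
    rw [← h2]
    exact (LinearDisjoint.of_inf_eq_bot h1).finrank_sup
  have e1 := relfinrank_mul_relfinrank (bot_le (a := A ⊓ B)) hA
  have e2 := relfinrank_mul_relfinrank (bot_le (a := A ⊓ B)) hB
  have e3 := relfinrank_mul_relfinrank (bot_le (a := A ⊓ B)) hAB
  simp only [relfinrank_bot_left] at e1 e2 e3
  rw [← e1, ← e2, ← e3, key]
  ring

lemma inf_le_general (m n : ℕ) (hm : 0 < m) (hn : 0 < n) (A B D : IntermediateField F L)
    (hA : IsCyclotomicExtension {m} F A) (hB : IsCyclotomicExtension {n} F B)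
    (hD : IsCyclotomicExtension {m.gcd n} F D)
    (irr : ∀ k : ℕ, 0 < k → Irreducible (Polynomial.cyclotomic k F)) : A ⊓ B ≤ D := by
  have : NeZero m := ⟨hm.ne'⟩
  have : NeZero n := ⟨hn.ne'⟩
  have : NeZero (m.gcd n) := ⟨(Nat.gcd_pos_of_pos_left _ hm).ne'⟩
  have : NeZero (m.lcm n) := ⟨(Nat.lcm_pos hm hn).ne'⟩
  have : FiniteDimensional F A := IsCyclotomicExtension.finite_of_singleton m F _
  have : FiniteDimensional F B := IsCyclotomicExtension.finite_of_singleton n F _
  have : IsGalois F A := IsCyclotomicExtension.isGalois {m} F _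
  have : IsCyclotomicExtension {m.lcm n} F ↥(A ⊔ B) :=
    IntermediateField.isCyclotomicExtension_lcm_sup F L m n A B
  have h := finrank_sup_inf A B
  rw [IsCyclotomicExtension.finrank (n := m) A (irr m hm),
    IsCyclotomicExtension.finrank (n := n) B (irr n hn),
    IsCyclotomicExtension.finrank (n := m.lcm n) ↥(A ⊔ B) (irr _ (Nat.lcm_pos hm hn)),
    ← totient_lcm_gcd m n hm] at h
  have h1 := Nat.eq_of_mul_eq_mul_left (Nat.totient_pos.2 (Nat.lcm_pos hm hn)) h
  have hle : D ≤ A ⊓ B :=
    le_inf (IntermediateField.isCyclotomicExtension_le_of_dvd F L (m.gcd n) m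
        D A (Nat.gcd_dvd_left m n))
      (IntermediateField.isCyclotomicExtension_le_of_dvd F L (m.gcd n) n
        D B (Nat.gcd_dvd_right m n))
  have : FiniteDimensional F ↥(A ⊓ B) :=
    FiniteDimensional.of_injective (IntermediateField.inclusion (inf_le_left : A ⊓ B ≤ A)).toLinearMap
      (IntermediateField.inclusion_injective (inf_le_left : A ⊓ B ≤ A))
  exact (IntermediateField.eq_of_le_of_finrank_eq hle
    ((IsCyclotomicExtension.finrank (n := m.gcd n) D
      (irr _ (Nat.gcd_pos_of_pos_left _ hm))).trans h1.symm)).ge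

end General

lemma cyc_isCyc (n : ℕ) (hn : 0 < n) :
    @IsCyclotomicExtension {n} ℚ (cyc n) _ _ (IntermediateField.algebra' (cyc n)) := by
  have : NeZero n := ⟨hn.ne'⟩
  have hζ := Complex.isPrimitiveRoot_exp n (NeZero.ne n)
  have hi : IsIntegral ℚ (Complex.exp (2 * Real.pi * Complex.I / n)) :=
    (hζ.isIntegral (NeZero.pos n)).tower_top
  change IsCyclotomicExtension {n} ℚ (cyc n).toSubalgebra
  unfold cyc
  rw [IntermediateField.adjoin_simple_toSubalgebra_of_isAlgebraic hi.isAlgebraic]
  exact hζ.adjoin_isCyclotomicExtension ℚ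

theorem con : StCon := fun m n hm hn =>
  inf_le_general m n hm hn (cyc m) (cyc n) (cyc (m.gcd n)) (cyc_isCyc m hm) (cyc_isCyc n hn)
    (cyc_isCyc _ (Nat.gcd_pos_of_pos_left _ hm)) (fun _ hk => Polynomial.cyclotomic.irreducible_rat hk)

/-- the conductor belongs to the set -/
lemma conductor_spec {G : Type} {χ : G → ℂ} (h : ∃ n, 0 < n ∧ valueField χ ≤ cyc n) :
    0 < conductor χ ∧ valueField χ ≤ cyc (conductor χ) :=
  Nat.sInf_mem (s := {n | 0 < n ∧ valueField χ ≤ cyc n}) h

/-- the conductor divides each `n` with `ℚ(χ) ⊆ ℚ_n` -/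
theorem conductor_dvd_of_le {G : Type} {χ : G → ℂ} {n : ℕ} (hn : 0 < n) (h : valueField χ ≤ cyc n) :
    conductor χ ∣ n := by
  obtain ⟨h1, h2⟩ := conductor_spec ⟨n, hn, h⟩
  have h3 : valueField χ ≤ cyc (Nat.gcd (conductor χ) n) := (le_inf h2 h).trans (con _ _ h1 hn)
  have h4 : conductor χ ≤ Nat.gcd (conductor χ) n :=
    Nat.sInf_le (s := {n | 0 < n ∧ valueField χ ≤ cyc n}) ⟨Nat.gcd_pos_of_pos_left _ h1, h3⟩
  have h5 : Nat.gcd (conductor χ) n = conductor χ :=
    le_antisymm (Nat.le_of_dvd h1 (Nat.gcd_dvd_left _ _)) h4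
  exact h5 ▸ Nat.gcd_dvd_right _ _

/-- the conductors of two functions, the value field of one containing that of the other -/
theorem conductor_dvd {G H : Type} {χ : G → ℂ} {ψ : H → ℂ} (h : valueField χ ≤ valueField ψ)
    (hn : ∃ n, 0 < n ∧ valueField ψ ≤ cyc n) : conductor χ ∣ conductor ψ := by
  obtain ⟨h1, h2⟩ := conductor_spec hn
  exact conductor_dvd_of_le h1 (h.trans h2)

/-- the level of the smaller value field is at most the level of the larger one -/
theorem lev_le {G H : Type} (p : ℕ) (hp : p.Prime) {χ : G → ℂ} {ψ : H → ℂ}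
    (h : valueField χ ≤ valueField ψ)
    (hn : ∃ n, 0 < n ∧ valueField ψ ≤ cyc n) : lev p χ ≤ lev p ψ := by
  unfold lev
  obtain ⟨h1, _⟩ := conductor_spec hn
  have := Fact.mk hp
  exact (padicValNat_dvd_iff_le h1.ne').1 (pow_padicValNat_dvd.trans (conductor_dvd h hn))

end Pool.Agent.K4H10.PR

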