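import Mathlib
import Pool.Agent.K4H10.PR.Spec

/-! Pieces EXT and TRANS of MP_1aae89_al. -/

namespace Pool.Agent.K4H10.PR
open scoped BigOperators Classical

/-- a quotient by a normal coatom has a generator -/
theorem zpowers_top_of_coatom {P : Type} [Group P] (K : Subgroup P) [K.Normal] (hK : IsCoatom K)
    (x : P ⧸ K) (hx : x ≠ 1) : Subgroup.zpowers x = ⊤ := by
  have hle : K ≤ (Subgroup.zpowers x).comap (QuotientGroup.mk' K) := by
    intro y hy
    rw [Subgroup.mem_comap]
    have : (QuotientGroup.mk' K) y = 1 := by simpa using hy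
    rw [this]; exact one_mem _
  have hmap : ((Subgroup.zpowers x).comap (QuotientGroup.mk' K)).map (QuotientGroup.mk' K) =
      Subgroup.zpowers x :=
    Subgroup.map_comap_eq_self_of_surjective (QuotientGroup.mk'_surjective K) _
  rcases eq_or_lt_of_le hle with h | h
  · exfalso
    apply hx
    have h1 : Subgroup.zpowers x = ⊥ := by
      rw [← hmap, ← h]
      rw [Subgroup.map_eq_bot_iff, QuotientGroup.ker_mk']
    exact Subgroup.zpowers_eq_bot.mp h1
  · have h2 := hK.2 _ h
    rw [← hmap, h2, Subgroup.map_top_of_surjective _ (QuotientGroup.mk'_surjective K)]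

/-- [EXT] -/
theorem ext : StExt := by
  intro p hp P _ _ hP Q hQ
  haveI : Fact p.Prime := ⟨hp⟩
  obtain ⟨K, hK, hQK⟩ := (eq_top_or_exists_le_coatom Q).resolve_left hQ
  haveI hnil : Group.IsNilpotent P := hP.isNilpotent
  haveI hKn : K.Normal := Subgroup.NormalizerCondition.normal_of_coatom K
    Group.normalizerCondition_of_isNilpotent hK
  have hne : ∃ y : P, y ∉ K := by
    by_contra hcon
    push Not at hcon
    exact hK.1 (eq_top_iff.mpr fun y _ => hcon y)
  obtain ⟨y, hy⟩ := hne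
  set x : P ⧸ K := QuotientGroup.mk y with hx
  have hx1 : x ≠ 1 := by
    intro h
    exact hy ((QuotientGroup.eq_one_iff y).mp h)
  have htop := zpowers_top_of_coatom K hK x hx1
  haveI hcyc : IsCyclic (P ⧸ K) := ⟨x, fun z => by
    have : z ∈ (⊤ : Subgroup (P ⧸ K)) := Subgroup.mem_top z
    rwa [← htop] at this⟩
  letI : CommGroup (P ⧸ K) := IsCyclic.commGroup
  haveI : NeZero (Monoid.exponent (P ⧸ K)) := ⟨Monoid.exponent_ne_zero_of_finite⟩
  obtain ⟨φ, hφ⟩ := CommGroup.exists_apply_ne_one_of_hasEnoughRootsOfUnity (P ⧸ K) ℂ hx1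
  -- the pull back
  let ν : P →* ℂˣ := φ.comp (QuotientGroup.mk' K)
  have hν1 : ν ≠ 1 := by
    intro h
    apply hφ
    have := DFunLike.congr_fun h y
    simpa [ν, hx] using this
  have hνK : ∀ z ∈ K, ν z = 1 := by
    intro z hz
    have : (QuotientGroup.mk' K) z = 1 := by simpa using hz
    simp only [ν, MonoidHom.comp_apply, this, map_one]
  -- the order of ν is a power of p
  obtain ⟨k, hk⟩ := (IsPGroup.iff_card.mp hP)
  have hνpow : ν ^ p ^ k = 1 := by
    ext z
    rw [MonoidHom.pow_apply, ← map_pow, ← hk, pow_card_eq_one', map_one, MonoidHom.one_apply]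
  have hex : ∃ j, ν ^ p ^ j = 1 := ⟨k, hνpow⟩
  classical
  set j := Nat.find hex with hj
  have hj1 : ν ^ p ^ j = 1 := Nat.find_spec hex
  have hj0 : j ≠ 0 := by
    intro h0
    rw [h0, pow_zero] at hj1
    apply hν1
    ext z
    have := DFunLike.congr_fun hj1 z
    rw [MonoidHom.pow_apply, pow_one] at this
    rw [this]
  obtain ⟨i, hi⟩ := Nat.exists_eq_succ_of_ne_zero hj0
  refine ⟨ν ^ p ^ i, ?_, ?_, ?_⟩
  · apply Nat.find_min hex
    rw [← hj, hi]; exact Nat.lt_succ_self i
  · refine MonoidHom.ext fun z => ?_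
    have h1 := DFunLike.congr_fun hj1 z
    rw [MonoidHom.pow_apply, hi] at h1
    rw [MonoidHom.pow_apply, MonoidHom.pow_apply, ← pow_mul, ← pow_succ]
    exact h1
  · intro z hz
    rw [MonoidHom.pow_apply, hνK z (hQK hz), one_pow]

/-- [TRANS] -/
theorem trans (h : StInv) : StTrans := by
  intro p a hp ha P _ _ hP Q hQ n hn
  obtain ⟨μ, hμ1, hμp, hμQ⟩ := ext p hp hP Q hQ
  have hμp' : ∀ x, μ x ^ p = 1 := by
    intro x
    have := DFunLike.congr_fun hμp x
    rwa [MonoidHom.pow_apply, MonoidHom.one_apply] at this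
  let τ : Equiv.Perm (P →* ℂˣ) := Equiv.mulRight μ
  have hτ1 : ∀ (lam : P →* ℂˣ) (x : P), (τ lam) x = lam x * μ x := fun lam x => rfl
  have hτpow : ∀ (k : ℕ) (lam : P →* ℂˣ) (x : P), ((τ ^ k) lam) x = lam x * μ x ^ k := by
    intro k
    induction k with
    | zero => intro lam x; simp
    | succ k ih =>
      intro lam x
      rw [pow_succ', Equiv.Perm.mul_apply, hτ1, ih, mul_assoc, ← pow_succ]
  have hτ : τ ^ (p ^ 1) = 1 := by
    refine Equiv.ext fun lam => MonoidHom.ext fun x => ?_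
    rw [hτpow, pow_one, hμp' x, mul_one]; rfl
  have hpow : ∀ x, μ x ^ p ^ (a - 1) = 1 := by
    intro x
    obtain ⟨b, rfl⟩ : ∃ b, a = b + 2 := ⟨a - 2, by omega⟩
    rw [show b + 2 - 1 = b + 1 by omega, pow_succ', pow_mul, hμp' x, one_pow]
  have key := h p 1 hp τ hτ (fun lam => if lam ^ p ^ (a - 1) ≠ 1 then n lam else 0) (by
    intro lam
    have e2 : (τ lam) ^ p ^ (a - 1) = lam ^ p ^ (a - 1) := by
      refine MonoidHom.ext fun x => ?_
      rw [MonoidHom.pow_apply, MonoidHom.pow_apply, hτ1, mul_pow, hpow, mul_one]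
    have e3 : n (τ lam) = n lam := by
      apply hn
      intro x hx
      rw [hτ1, hμQ x hx, mul_one]
    simp only [e2, e3])
  have hfix : ∀ lam : P →* ℂˣ, τ lam ≠ lam := by
    intro lam hl
    apply hμ1
    refine MonoidHom.ext fun x => ?_
    have := DFunLike.congr_fun hl x
    rw [hτ1] at this
    rw [MonoidHom.one_apply]
    exact mul_eq_left.mp this
  have hgoal : (∑ lam : P →* ℂˣ, if τ lam ≠ lam then
      (if lam ^ p ^ (a - 1) ≠ 1 then n lam else 0) else 0) =
      ∑ lam : P →* ℂˣ, if lam ^ p ^ (a - 1) ≠ 1 then n lam else 0 := by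
    refine Finset.sum_congr rfl fun lam _ => ?_
    rw [if_pos (hfix lam)]
  rw [← hgoal]
  exact key

end Pool.Agent.K4H10.PR
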