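import Pool.Agent.K4H10.PR.Spec

namespace Pool.Agent.K4H10.PR
open scoped BigOperators Classical
open Finset

theorem inv : StInv := by
  intro p n hp α _ τ hτ F hF
  haveI := Fact.mk hp
  rw [← Finset.sum_filter]
  rw [← Finset.sum_fiberwise_of_maps_to (s := univ.filter (fun x => τ x ≠ x))
    (t := (univ.filter (fun x => τ x ≠ x)).image F) (g := F)
    (fun x hx => Finset.mem_image_of_mem F hx)]
  refine Finset.dvd_sum fun z _ => ?_
  have h1 : ∑ x ∈ (univ.filter (fun x => τ x ≠ x)).filter (fun x => F x = z), F x =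
      ∑ x ∈ (univ.filter (fun x => τ x ≠ x)).filter (fun x => F x = z), z :=
    Finset.sum_congr rfl fun x hx => (Finset.mem_filter.1 hx).2
  rw [h1, Finset.sum_const, nsmul_eq_mul]
  refine Dvd.dvd.mul_right ?_ _
  rw [Finset.filter_filter]
  have hst : ∀ x, (τ (τ x) ≠ τ x ∧ F (τ x) = z) ↔ (τ x ≠ x ∧ F x = z) := by
    intro x
    rw [hF x]
    constructor
    · rintro ⟨h, h'⟩
      exact ⟨fun e => h (by rw [e, e]), h'⟩
    · rintro ⟨h, h'⟩
      exact ⟨fun e => h (τ.injective e), h'⟩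
  let σ : Equiv.Perm {x // τ x ≠ x ∧ F x = z} := τ.subtypePerm hst
  have hσ : σ ^ (p ^ n) = 1 := by
    ext x
    have : ∀ m : ℕ, ((σ ^ m) x : α) = (τ ^ m) (x : α) := by
      intro m
      induction m with
      | zero => rfl
      | succ m ih => rw [pow_succ', pow_succ', Equiv.Perm.mul_apply, Equiv.Perm.mul_apply, ← ih]; rfl
    rw [this, hτ]; rfl
  have hdvd : p ∣ Fintype.card {x // τ x ≠ x ∧ F x = z} := by
    by_contra hn
    obtain ⟨x, hx⟩ := Equiv.Perm.exists_fixed_point_of_prime hn hσ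
    exact x.2.1 (congrArg Subtype.val hx)
  rw [Fintype.card_subtype] at hdvd
  exact_mod_cast hdvd

theorem pow : StPow := by
  intro p a hp ha P _ _ hP F hF
  haveI := Fact.mk hp
  obtain ⟨N, hN⟩ := (IsPGroup.iff_card.1 hP)
  set k : ℕ := 1 + p ^ (a - 1) with hk
  have hone : ∀ lam : P →* ℂˣ, lam ^ (p ^ N) = 1 := by
    intro lam
    ext x
    rw [MonoidHom.pow_apply, ← map_pow, ← hN, pow_card_eq_one', map_one, MonoidHom.one_apply]
  have hkp : ∃ q : ℕ, k ^ (p ^ N) = 1 + p ^ N * q := by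
    have h1 : ((p : ℤ)) ∣ (k : ℤ) - 1 := by
      rw [hk]; push_cast
      rw [add_sub_cancel_left]
      exact dvd_pow_self _ (by omega)
    have h2 := dvd_sub_pow_of_dvd_sub (R := ℤ) (p := p) h1 N
    rw [one_pow] at h2
    have h3 : ((p : ℤ)) ^ N ∣ (k : ℤ) ^ p ^ N - 1 := dvd_trans (pow_dvd_pow _ (Nat.le_succ N)) h2
    have hge : 1 ≤ k ^ p ^ N := Nat.one_le_pow _ _ (by omega)
    have h4 : p ^ N ∣ k ^ p ^ N - 1 := by
      zify [hge]; exact_mod_cast h3
    obtain ⟨q, hq⟩ := h4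
    exact ⟨q, by omega⟩
  obtain ⟨q, hq⟩ := hkp
  let f : (P →* ℂˣ) → (P →* ℂˣ) := fun lam => lam ^ k
  have hit : ∀ (m : ℕ) (lam : P →* ℂˣ), f^[m] lam = lam ^ (k ^ m) := by
    intro m
    induction m with
    | zero => intro lam; rw [pow_zero]; exact (pow_one lam).symm
    | succ m ih =>
      intro lam
      rw [Function.iterate_succ_apply, ih, pow_succ']
      exact (pow_mul lam k (k ^ m)).symm
  have hid : ∀ lam : P →* ℂˣ, f^[p ^ N] lam = lam := by
    intro lam
    rw [hit, hq]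
    have e1 : lam ^ (1 + p ^ N * q) = lam ^ 1 * (lam ^ (p ^ N)) ^ q :=
      (pow_add lam 1 (p ^ N * q)).trans (congrArg (fun u => lam ^ 1 * u) (pow_mul lam (p ^ N) q))
    have e2 : (lam ^ (p ^ N)) ^ q = 1 := by
      rw [hone lam]; exact one_pow (M := P →* ℂˣ) q
    exact e1.trans ((congrArg (fun u => lam ^ 1 * u) e2).trans
      ((mul_one (lam ^ 1)).trans (pow_one lam)))
  have hpos : 0 < p ^ N := pow_pos hp.pos N
  let τ : Equiv.Perm (P →* ℂˣ) :=
    { toFun := f
      invFun := f^[p ^ N - 1]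
      left_inv := fun lam => by
        show f^[p ^ N - 1] (f lam) = lam
        rw [← Function.iterate_succ_apply, Nat.succ_eq_add_one, Nat.sub_one_add_one hpos.ne', hid]
      right_inv := fun lam => by
        show f (f^[p ^ N - 1] lam) = lam
        rw [← Function.iterate_succ_apply' f, Nat.succ_eq_add_one, Nat.sub_one_add_one hpos.ne', hid] }
  have hτ : τ ^ (p ^ N) = 1 := by
    ext1 lam
    rw [← Equiv.Perm.iterate_eq_pow]
    exact hid lam
  have h := inv p N hp τ hτ F (fun lam => hF lam)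
  have hiff : ∀ lam : P →* ℂˣ, (τ lam ≠ lam) ↔ (lam ^ p ^ (a - 1) ≠ 1) := by
    intro lam
    refine not_congr ?_
    show lam ^ k = lam ↔ _
    have e1 : lam ^ k = lam * lam ^ (p ^ (a - 1)) :=
      (pow_add lam 1 (p ^ (a - 1))).trans (congrArg (fun u => u * lam ^ (p ^ (a - 1))) (pow_one lam))
    rw [e1]
    exact mul_eq_left (a := lam)
  have hs : (∑ x : P →* ℂˣ, if τ x ≠ x then F x else 0) =
      ∑ lam : P →* ℂˣ, if lam ^ p ^ (a - 1) ≠ 1 then F lam else 0 := by
    refine Finset.sum_congr rfl fun lam _ => ?_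
    by_cases hl : lam ^ p ^ (a - 1) ≠ 1
    · rw [if_pos hl, if_pos ((hiff lam).2 hl)]
    · rw [if_neg hl, if_neg (fun h' => hl ((hiff lam).1 h'))]
  rw [hs] at h
  exact h

end Pool.Agent.K4H10.PR
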