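import Mathlib
import Pool.Agent.K4H10.PR.Spec

/-! [ORB] (helper47 for helper10): sums over orbits of a `p`-group. -/

namespace Pool.Agent.K4H10.PR
open scoped BigOperators Classical

/-- an orbit-constant integer function, summed with weights `1/|orbit|`, is an integer -/
theorem orb_int {P : Type} [Group P] {X : Type} [Fintype X] [MulAction P X] (f : X → ℤ)
    (hf : ∀ (x : P) (c : X), f (x • c) = f c) :
    ∃ T : ℤ, (T : ℂ) = ∑ c : X, (Nat.card (MulAction.orbit P c) : ℂ)⁻¹ * (f c : ℂ) := by
  let Ω := MulAction.orbitRel.Quotient P X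
  have : Finite Ω := Quotient.finite _
  have : Fintype Ω := Fintype.ofFinite Ω
  let q : X → Ω := fun c => Quotient.mk'' c
  refine ⟨∑ w : Ω, f w.out, ?_⟩
  rw [← Finset.sum_fiberwise Finset.univ q, Int.cast_sum]
  refine Finset.sum_congr rfl fun w _ => ?_
  have hmem : ∀ c : X, q c = w ↔ c ∈ MulAction.orbit P w.out := by
    intro c
    rw [← MulAction.orbitRel_apply]
    constructor
    · intro h
      have h1 : (Quotient.mk'' c : Ω) = Quotient.mk'' w.out :=
        (show (Quotient.mk'' c : Ω) = w from h).trans (Quotient.out_eq' w).symm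
      exact Quotient.exact h1
    · intro h
      have h1 : (Quotient.mk'' c : Ω) = Quotient.mk'' w.out := Quotient.sound h
      exact h1.trans (Quotient.out_eq' w)
  have hconst : ∀ c ∈ Finset.univ.filter (fun c => q c = w),
      (Nat.card (MulAction.orbit P c) : ℂ)⁻¹ * (f c : ℂ)
        = (Nat.card (MulAction.orbit P w.out) : ℂ)⁻¹ * (f w.out : ℂ) := by
    intro c hc
    have h1 := (hmem c).1 (Finset.mem_filter.1 hc).2
    have h2 : MulAction.orbit P c = MulAction.orbit P w.out := MulAction.orbit_eq_iff.2 h1
    obtain ⟨x, rfl⟩ := h1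
    show (Nat.card (MulAction.orbit P (x • w.out)) : ℂ)⁻¹ * (f (x • w.out) : ℂ) = _
    rw [hf, MulAction.orbit_smul]
  rw [Finset.sum_congr rfl hconst, Finset.sum_const, nsmul_eq_mul]
  have hcard : (Finset.univ.filter (fun c => q c = w)).card
      = Nat.card (MulAction.orbit P w.out) := by
    rw [Nat.card_eq_fintype_card, Fintype.card_subtype]
    congr 1
    ext c
    simp only [Finset.mem_filter, Finset.mem_univ, true_and]
    exact hmem c
  rw [hcard]
  have hne : (Nat.card (MulAction.orbit P w.out) : ℂ) ≠ 0 := by
    rw [Nat.cast_ne_zero]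
    have : Nonempty (MulAction.orbit P w.out) := ⟨⟨_, MulAction.mem_orbit_self _⟩⟩
    exact Nat.card_pos.ne'
  rw [← mul_assoc, mul_inv_cancel₀ hne, one_mul]

theorem orb : StOrb := by
  intro p hp P _ _ hP X _ _ t ht s hs hdiv
  have : Fact p.Prime := ⟨hp⟩
  let u : X → ℤ := fun c => if c ∈ MulAction.fixedPoints P X then 0 else t c / p
  have hfix : ∀ (x : P) (c : X), x • c ∈ MulAction.fixedPoints P X ↔
      c ∈ MulAction.fixedPoints P X := by
    intro x c
    constructor
    · intro h
      have h1 : x • c = c := by
        have := h x⁻¹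
        rw [inv_smul_smul] at this
        exact this.symm
      rw [← h1]; exact h
    · intro h
      rw [h x]; exact h
  obtain ⟨U, hU⟩ := orb_int (P := P) u (by
    intro x c
    simp only [u, hfix, ht])
  have hcardX : (p : ℤ) ∣ (Fintype.card X : ℤ) - (Nat.card (MulAction.fixedPoints P X) : ℤ) := by
    have h1 := hP.card_modEq_card_fixedPoints X
    rw [Nat.card_eq_fintype_card (α := X)] at h1
    exact (Nat.modEq_iff_dvd.1 h1.symm)
  refine ⟨(Nat.card (MulAction.fixedPoints P X) : ℤ) * s + p * U, ?_, ?_⟩
  · have hterm : ∀ c : X, (Nat.card (MulAction.orbit P c) : ℂ)⁻¹ * (t c : ℂ)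
        = (if c ∈ MulAction.fixedPoints P X then (s : ℂ) else 0)
          + (p : ℂ) * ((Nat.card (MulAction.orbit P c) : ℂ)⁻¹ * (u c : ℂ)) := by
      intro c
      by_cases hc : c ∈ MulAction.fixedPoints P X
      · have h1 : Nat.card (MulAction.orbit P c) = 1 := by
          have : MulAction.orbit P c = {c} := by
            ext y
            constructor
            · rintro ⟨x, rfl⟩
              exact hc x
            · rintro rfl
              exact MulAction.mem_orbit_self _
          rw [this]
          simp
        simp only [u, if_pos hc, h1, hs c hc]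
        simp
      · have h2 : (t c : ℂ) = (p : ℂ) * (u c : ℂ) := by
          simp only [u, if_neg hc]
          have := Int.mul_ediv_cancel' (hdiv c hc)
          rw [← this]
          push_cast
          congr 2
          rw [this]
        rw [if_neg hc, h2]
        ring
    rw [Finset.sum_congr rfl fun c _ => hterm c, Finset.sum_add_distrib, ← Finset.mul_sum, ← hU,
      Finset.sum_ite, Finset.sum_const_zero, add_zero, Finset.sum_const, nsmul_eq_mul]
    push_cast
    congr 2
    rw [Nat.card_eq_fintype_card, Fintype.card_subtype]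
  · obtain ⟨w, hw⟩ := hcardX
    refine ⟨U - w * s, ?_⟩
    linear_combination -s * hw

end Pool.Agent.K4H10.PR
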