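import Pool.Agent.K4H10.PR.Main
import Pool.Agent.K4H10.PR.Ext
import Pool.Agent.K4H10.PR.Orb
import Pool.Agent.K4H60.PRGal
import Pool.Agent.K4H60.PRMul
import Pool.Agent.K4H56.PR.Tri
import Pool.Agent.K4H62.PR.Fix
import Pool.Agent.K4H10.PR.Inv
import Pool.Agent.K4H22.PR.ConE

namespace Pool.Agent.K4H10.PR
open scoped BigOperators Classical

/-! ### conductors -/

theorem conductor_spec {G : Type} (χ : G → ℂ) (n : ℕ) (hn : 0 < n) (h : valueField χ ≤ cyc n) :
    0 < conductor χ ∧ valueField χ ≤ cyc (conductor χ) :=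
  Nat.sInf_mem (s := {n | 0 < n ∧ valueField χ ≤ cyc n}) ⟨n, hn, h⟩

theorem conductor_dvd (hCon : StCon) {G : Type} (χ : G → ℂ) (n : ℕ) (hn : 0 < n)
    (h : valueField χ ≤ cyc n) : conductor χ ∣ n := by
  obtain ⟨h1, h2⟩ := conductor_spec χ n hn h
  have h3 : valueField χ ≤ cyc (Nat.gcd (conductor χ) n) :=
    (le_inf h2 h).trans (hCon _ _ h1 hn)
  have h4 : conductor χ ≤ Nat.gcd (conductor χ) n :=
    Nat.sInf_le ⟨Nat.gcd_pos_of_pos_left _ h1, h3⟩
  have h5 : Nat.gcd (conductor χ) n = conductor χ :=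
    le_antisymm (Nat.gcd_le_left _ h1) h4
  rw [← h5]
  exact Nat.gcd_dvd_right _ _

theorem spec_of_lev {G : Type} (p : ℕ) (χ : G → ℂ) (h : lev p χ ≠ 0) :
    0 < conductor χ ∧ valueField χ ≤ cyc (conductor χ) := by
  have h1 : conductor χ ≠ 0 := by
    intro h0
    apply h
    unfold lev
    rw [h0]
    simp
  have h2 : {n | 0 < n ∧ valueField χ ≤ cyc n}.Nonempty := by
    by_contra h3
    rw [Set.not_nonempty_iff_eq_empty] at h3
    apply h1
    unfold conductor
    rw [h3]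
    simp
  exact Nat.sInf_mem h2

theorem lev_le_of {G H : Type} (hCon : StCon) (p : ℕ) [Fact p.Prime] (χ : G → ℂ) (ψ : H → ℂ)
    (h : valueField χ ≤ valueField ψ) (hc : 0 < conductor ψ ∧ valueField ψ ≤ cyc (conductor ψ)) :
    lev p χ ≤ lev p ψ := by
  have h1 := conductor_dvd hCon χ (conductor ψ) hc.1 (h.trans hc.2)
  unfold lev
  rw [← padicValNat_dvd_iff_le hc.1.ne']
  exact dvd_trans pow_padicValNat_dvd h1

theorem ind_le {G : Type} [Group G] [Fintype G] (M : Subgroup G) (ψ : M → ℂ) :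
    valueField (ind M ψ) ≤ valueField ψ := by
  unfold valueField
  rw [IntermediateField.adjoin_le_iff]
  rintro _ ⟨x, rfl⟩
  unfold ind
  refine (IntermediateField.adjoin ℚ (Set.range ψ)).mul_mem
    ((IntermediateField.adjoin ℚ (Set.range ψ)).inv_mem (natCast_mem _ _)) ?_
  refine sum_mem fun g _ => ?_
  split_ifs with h
  · exact IntermediateField.subset_adjoin _ _ ⟨_, rfl⟩
  · exact zero_mem _

/-- the general form: integral class functions -/
theorem lev_ind (hCon : StCon) (hInv : StInv) (hPow : StPow) (p a : ℕ) (hp : p.Prime) (ha : 2 ≤ a)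
    {G : Type} [Group G] [Fintype G] (M P : Subgroup G) (hPM : P ≤ M) (hPp : IsPGroup p P)
    (hPi : ¬ p ∣ P.index) (ψ : M → ℂ) (hψ : ∀ x y : M, ψ (y * x * y⁻¹) = ψ x) (hI : IntegralH ψ)
    (hlev : lev p ψ = a)
    (s : ℤ) (hs : (s : ℂ) = ∑ lam : P →* ℂˣ, if lam ^ p ^ (a - 1) ≠ 1 then
      (Fintype.card P : ℂ)⁻¹ * ∑ x : P, ψ ⟨x, hPM x.2⟩ * ((lam x)⁻¹ : ℂˣ) else 0)
    (hsp : ¬ (p : ℤ) ∣ s) : lev p (ind M ψ) = a := by
  haveI : Fact p.Prime := ⟨hp⟩
  have hc := spec_of_lev p ψ (by omega)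
  have hMi : ¬ p ∣ M.index := fun h => hPi (h.trans (Subgroup.index_dvd_of_le hPM))
  have hPr : ¬ p ∣ P.relIndex M := fun h => hPi (h.trans (Subgroup.relIndex_dvd_index_of_le hPM))
  have h1 : lev p (ind M ψ) ≤ a := by
    rw [← hlev]
    exact lev_le_of hCon p _ _ (ind_le M ψ) hc
  obtain ⟨h2, h3⟩ := conductor_spec (ind M ψ) (conductor ψ) hc.1 ((ind_le M ψ).trans hc.2)
  have h4 := main_abs gal hPow (trans hInv) orb fix p a hp ha M P hPM hPp hMi hPr ψ hψ hI s hs hsp
    _ h2 h3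
  refine le_antisymm h1 ?_
  unfold lev
  exact (padicValNat_dvd_iff_le h2.ne').mp h4

/-! ### characters of representations -/

theorem char_conj {M : Type} [Group M] {V : Type} [AddCommGroup V] [Module ℂ V]
    (ρ : M →* (V →ₗ[ℂ] V)) (x y : M) :
    LinearMap.trace ℂ V (ρ (y * x * y⁻¹)) = LinearMap.trace ℂ V (ρ x) := by
  rw [map_mul ρ, map_mul ρ, LinearMap.trace_mul_cycle, ← map_mul ρ, ← map_mul ρ, inv_mul_cancel,
    one_mul]

theorem char_integral {M : Type} [Group M] {V : Type} [AddCommGroup V] [Module ℂ V]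
    [FiniteDimensional ℂ V] (ρ : M →* (V →ₗ[ℂ] V)) :
    IntegralH (fun x => LinearMap.trace ℂ V (ρ x)) := by
  intro Q _ _ φ lam
  refine ⟨(Module.finrank ℂ (⨅ x : Q, LinearMap.ker ((ρ.comp φ) x -
    ((lam x : ℂˣ) : ℂ) • LinearMap.id) : Submodule ℂ V) : ℕ), ?_⟩
  have := mul (ρ.comp φ) lam
  simpa using this

/-- representations of the group `M` on `V` -/
abbrev Rep (M : Type) [Group M] (V : Type) [AddCommGroup V] [Module ℂ V] : Type :=
  M →* (V →ₗ[ℂ] V)

/-- linear characters -/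
abbrev LinChar (P : Type) [Group P] : Type := P →* ℂˣ

/-- a linear character as a function -/
noncomputable def lin {P : Type} [Group P] (lam : LinChar P) (x : P) : ℂ := lam x

/-- the character of a representation -/
noncomputable def char {M : Type} [Group M] {V : Type} [AddCommGroup V] [Module ℂ V]
    (ρ : Rep M V) (x : M) : ℂ := LinearMap.trace ℂ V (ρ x)

/-- restriction to a subgroup `P ≤ M` -/
noncomputable def res {G : Type} [Group G] {M P : Subgroup G} (hPM : P ≤ M) {V : Type}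
    [AddCommGroup V] [Module ℂ V] (ρ : Rep M V) : Rep P V := MonoidHom.comp ρ (Subgroup.inclusion hPM)

/-- the space of all `v` with `ρ x v = lam x • v` for all `x` -/
def eig {P : Type} [Group P] {V : Type} [AddCommGroup V] [Module ℂ V]
    (ρ : Rep P V) (lam : LinChar P) : Submodule ℂ V :=
  ⨅ x : P, LinearMap.ker (ρ x - ((lam x : ℂˣ) : ℂ) • LinearMap.id)

/-- the multiplicity of the linear character `lam` in `ρ` -/
noncomputable def mult {P : Type} [Group P] {V : Type} [AddCommGroup V] [Module ℂ V]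
    (ρ : Rep P V) (lam : LinChar P) : ℕ := Module.finrank ℂ (eig ρ lam)

/-- the number (with multiplicity) of linear constituents `lam` of the representation `ρ` of `P`
with `lam ^ k ≠ 1` -/
noncomputable def linCount {P : Type} [Group P] [Finite P]
    {V : Type} [AddCommGroup V] [Module ℂ V] (ρ : Rep P V) (k : ℕ) : ℕ :=
  ∑ lam : LinChar P, if lam ^ k ≠ 1 then mult ρ lam else 0

/-- **Criterion.** -/
theorem criterion (hCon : StCon) (hInv : StInv) (hPow : StPow) (p a : ℕ) (hp : p.Prime)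
    (ha : 2 ≤ a)
    {G : Type} [Group G] [Fintype G] (M P : Subgroup G) (hPM : P ≤ M) (hPp : IsPGroup p P)
    (hPi : ¬ p ∣ P.index) {V : Type} [AddCommGroup V] [Module ℂ V] [FiniteDimensional ℂ V]
    (ρ : Rep M V) (hlev : lev p (char ρ) = a)
    (hcount : ¬ p ∣ linCount (res hPM ρ) (p ^ (a - 1))) :
    lev p (ind M (char ρ)) = a := by
  refine lev_ind hCon hInv hPow p a hp ha M P hPM hPp hPi (char ρ) (fun x y => char_conj ρ x y)
    (char_integral ρ) hlev (linCount (res hPM ρ) (p ^ (a - 1)) : ℤ) ?_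
    (by exact_mod_cast hcount)
  unfold linCount mult eig
  rw [Int.cast_natCast, Nat.cast_sum]
  refine Finset.sum_congr rfl fun lam _ => ?_
  by_cases h : lam ^ p ^ (a - 1) = 1
  · simp [h]
  · have := mul (ρ.comp (Subgroup.inclusion hPM)) lam
    rw [if_pos h, if_pos h]
    exact this.symm

/-! ### linear and monomial characters -/

theorem avg {Q : Type} [Group Q] [Fintype Q] (χ : Q →* ℂˣ) :
    (Fintype.card Q : ℂ)⁻¹ * ∑ x : Q, (χ x : ℂ) = if χ = 1 then 1 else 0 := by
  by_cases h : χ = 1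
  · subst h
    have : (Fintype.card Q : ℂ) ≠ 0 := by exact_mod_cast Fintype.card_ne_zero
    simp [this]
  · rw [if_neg h]
    have h1 : ((Units.coeHom ℂ).comp χ) ≠ 1 := by
      intro h2
      apply h
      ext x
      have := DFunLike.congr_fun h2 x
      simpa using this
    have h2 := sum_hom_units_eq_zero ((Units.coeHom ℂ).comp χ) h1
    have h3 : ∑ x : Q, (χ x : ℂ) = 0 := by simpa using h2
    rw [h3, mul_zero]

theorem lin_integral {H : Type} [Group H] (μ : H →* ℂˣ) : IntegralH (fun x => (μ x : ℂ)) := by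
  intro Q _ _ φ lam
  have h := avg ((μ.comp φ) * lam⁻¹)
  have h1 : ∑ x : Q, (((μ.comp φ) * lam⁻¹) x : ℂ) = ∑ x : Q, (μ (φ x) : ℂ) * ((lam x)⁻¹ : ℂˣ) := by
    refine Finset.sum_congr rfl fun x _ => ?_
    rw [MonoidHom.mul_apply, MonoidHom.inv_apply, Units.val_mul]
    rfl
  rw [h1] at h
  refine ⟨if (μ.comp φ) * lam⁻¹ = 1 then 1 else 0, ?_⟩
  rw [h]
  split_ifs <;> simp

theorem root_mem_cyc (n : ℕ) (hn : 0 < n) (z : ℂ) (hz : z ^ n = 1) : z ∈ cyc n := by
  have : NeZero n := ⟨hn.ne'⟩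
  obtain ⟨i, _, hi⟩ := (Complex.isPrimitiveRoot_exp n hn.ne').eq_pow_of_pow_eq_one hz
  have h1 : Complex.exp (2 * Real.pi * Complex.I / n) ∈ cyc n := by
    unfold cyc
    exact IntermediateField.mem_adjoin_simple_self ℚ _
  have h2 := pow_mem h1 i
  rw [hi] at h2
  exact h2

theorem lin_order (p : ℕ) (hp : p.Prime) {H : Type} [Group H] [Fintype H] (S : Subgroup H)
    (hS : ¬ p ∣ S.index) (μ : H →* ℂˣ) (hlev : 1 ≤ lev p (fun x => (μ x : ℂ))) :
    ¬ ∀ x ∈ S, μ x ^ p ^ (lev p (fun x => (μ x : ℂ)) - 1) = 1 := by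
  haveI : Fact p.Prime := ⟨hp⟩
  set a := lev p (fun x => (μ x : ℂ)) with ha
  intro h
  set K := (μ ^ p ^ (a - 1)).ker with hK
  have h1 : S ≤ K := by
    intro x hx
    rw [hK, MonoidHom.mem_ker, MonoidHom.pow_apply]
    exact h x hx
  have h2 : ¬ p ∣ K.index := fun h3 => hS (h3.trans (Subgroup.index_dvd_of_le h1))
  have hKpos : 0 < K.index := Nat.pos_of_ne_zero Subgroup.index_ne_zero_of_finite
  have h4 : ∀ x : H, (μ x : ℂ) ^ (p ^ (a - 1) * K.index) = 1 := by
    intro x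
    have h5 : x ^ K.index ∈ K := Subgroup.pow_index_mem K x
    rw [hK, MonoidHom.mem_ker, MonoidHom.pow_apply, map_pow, ← pow_mul] at h5
    have h6 := congrArg Units.val h5
    rw [Units.val_pow_eq_pow_val, Units.val_one] at h6
    rw [mul_comm]
    exact h6
  have hpos : 0 < p ^ (a - 1) * K.index := Nat.mul_pos (pow_pos hp.pos _) hKpos
  have h5 : valueField (fun x => (μ x : ℂ)) ≤ cyc (p ^ (a - 1) * K.index) := by
    unfold valueField
    rw [IntermediateField.adjoin_le_iff]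
    rintro _ ⟨x, rfl⟩
    exact root_mem_cyc _ hpos _ (h4 x)
  have h6 := conductor_dvd con _ _ hpos h5
  have h7 : p ^ a ∣ conductor (fun x => (μ x : ℂ)) := by
    rw [ha]
    exact pow_padicValNat_dvd
  have h8 : p ^ (a - 1) * p ∣ p ^ (a - 1) * K.index := by
    rw [← pow_succ, Nat.sub_add_cancel hlev]
    exact h7.trans h6
  exact h2 (Nat.dvd_of_mul_dvd_mul_left (pow_pos hp.pos _) h8)

theorem lin_spec (p : ℕ) {H : Type} [Group H] [Fintype H] (μ : H →* ℂˣ) :
    0 < conductor (fun x => (μ x : ℂ)) ∧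
      valueField (fun x => (μ x : ℂ)) ≤ cyc (conductor (fun x => (μ x : ℂ))) := by
  refine conductor_spec _ (Fintype.card H) Fintype.card_pos ?_
  unfold valueField
  rw [IntermediateField.adjoin_le_iff]
  rintro _ ⟨x, rfl⟩
  refine root_mem_cyc _ Fintype.card_pos _ ?_
  have h : (μ x) ^ Fintype.card H = 1 := by rw [← map_pow, pow_card_eq_one, map_one]
  rw [← Units.val_pow_eq_pow_val, h, Units.val_one]

theorem lev_ind_linear (p : ℕ) (hp : p.Prime) {G : Type} [Group G] [Fintype G] (H : Subgroup G)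
    (hHi : ¬ p ∣ H.index) (μ : H →* ℂˣ) (hlev : 2 ≤ lev p (fun x => (μ x : ℂ))) :
    lev p (ind H fun x => (μ x : ℂ)) = lev p (fun x => (μ x : ℂ)) := by
  haveI : Fact p.Prime := ⟨hp⟩
  obtain ⟨S⟩ : Nonempty (Sylow p H) := inferInstance
  set P : Subgroup G := (S : Subgroup H).map H.subtype with hP
  have hPH : P ≤ H := by
    rintro _ ⟨y, _, rfl⟩
    exact y.2
  have hPp : IsPGroup p P := S.2.map _
  have hSi : ¬ p ∣ (S : Subgroup H).index := Sylow.not_dvd_index S
  have hPi : ¬ p ∣ P.index := by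
    rw [hP, Subgroup.index_map_subtype]
    exact hp.prime.not_dvd_mul hSi hHi
  set a := lev p (fun x => (μ x : ℂ)) with ha
  set μP : P →* ℂˣ := μ.comp (Subgroup.inclusion hPH) with hμP
  have hne : μP ^ p ^ (a - 1) ≠ 1 := by
    intro h
    refine lin_order p hp (S : Subgroup H) hSi μ (by omega) ?_
    intro x hx
    have h1 := DFunLike.congr_fun h ⟨x.1, ⟨x, hx, rfl⟩⟩
    exact h1
  refine lev_ind con inv pow p a hp hlev H P hPH hPp hPi _ ?_ (lin_integral μ) ha.symm 1 ?_ ?_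
  · intro x y
    simp only [map_mul, map_inv]
    rw [mul_comm (μ y), mul_inv_cancel_right]
  · rw [Finset.sum_eq_single μP]
    · rw [if_pos hne]
      have h1 := avg (1 : P →* ℂˣ)
      rw [if_pos rfl] at h1
      rw [Int.cast_one, ← h1]
      congr 1
      refine Finset.sum_congr rfl fun x _ => ?_
      have : (μ ⟨x, hPH x.2⟩ : ℂ) = (μP x : ℂ) := rfl
      rw [this, ← Units.val_mul, mul_inv_cancel]
      rfl
    · intro lam _ hl
      by_cases h : lam ^ p ^ (a - 1) = 1
      · simp [h]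
      · rw [if_pos h]
        have h1 := avg (μP * lam⁻¹)
        rw [if_neg (by
          intro h2
          exact hl (mul_inv_eq_one.mp h2).symm)] at h1
        rw [← h1]
        congr 1
    · intro h
      exact absurd (Finset.mem_univ _) h
  · intro h
    have := Int.le_of_dvd one_pos h
    have := hp.two_le
    omega

theorem lev_congr {G H : Type} (p : ℕ) (χ : G → ℂ) (ψ : H → ℂ) (h : Set.range χ = Set.range ψ) :
    lev p χ = lev p ψ := by
  unfold lev conductor valueField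
  rw [h]

theorem monomial (p : ℕ) (hp : p.Prime) {G : Type} [Group G] [Fintype G] (M : Subgroup G)
    (hMi : ¬ p ∣ M.index) (H : Subgroup M) (hHi : ¬ p ∣ H.index) (μ : H →* ℂˣ)
    (hlev : 2 ≤ lev p (ind H fun x => (μ x : ℂ))) :
    lev p (ind M (ind H fun x => (μ x : ℂ))) = lev p (ind H fun x => (μ x : ℂ)) := by
  haveI : Fact p.Prime := ⟨hp⟩
  have h1 : lev p (ind H fun x => (μ x : ℂ)) ≤ lev p (fun x => (μ x : ℂ)) :=
    lev_le_of con p _ _ (ind_le H _) (lin_spec p μ)
  have h2 := lev_ind_linear p hp H hHi μ (hlev.trans h1)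
  set H' : Subgroup G := H.map M.subtype with hH'
  have hHi' : ¬ p ∣ H'.index := by
    rw [hH', Subgroup.index_map_subtype]
    exact hp.prime.not_dvd_mul hHi hMi
  let e : H ≃* H' := H.equivMapOfInjective M.subtype M.subtype_injective
  set μ' : H' →* ℂˣ := μ.comp e.symm.toMonoidHom with hμ'
  have hr : lev p (fun x => (μ' x : ℂ)) = lev p (fun x => (μ x : ℂ)) := by
    apply lev_congr
    ext z
    constructor
    · rintro ⟨x, rfl⟩
      exact ⟨e.symm x, rfl⟩
    · rintro ⟨x, rfl⟩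
      refine ⟨e x, ?_⟩
      simp [hμ']
  have h3 := lev_ind_linear p hp H' hHi' μ' (by rw [hr]; exact hlev.trans h1)
  have h4 : ind M (ind H fun x => (μ x : ℂ)) = ind H' fun x => (μ' x : ℂ) := by
    funext x
    rw [tri M H _ x]
    unfold ind
    have hc : Fintype.card H = Fintype.card H' := Fintype.card_congr e.toEquiv
    rw [hc]
    congr 1
    refine Finset.sum_congr rfl fun g _ => ?_
    by_cases h : ∃ h : g⁻¹ * x * g ∈ M, (⟨g⁻¹ * x * g, h⟩ : M) ∈ H
    · have h' : g⁻¹ * x * g ∈ H' := ⟨⟨g⁻¹ * x * g, h.1⟩, h.2, rfl⟩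
      rw [dif_pos h, dif_pos h']
      have h5 : e ⟨⟨g⁻¹ * x * g, h.1⟩, h.2⟩ = ⟨g⁻¹ * x * g, h'⟩ := rfl
      rw [← h5]
      simp [hμ']
    · have h' : g⁻¹ * x * g ∉ H' := by
        rintro ⟨y, hy, hy'⟩
        apply h
        have h6 : (y : G) = g⁻¹ * x * g := hy'
        refine ⟨h6 ▸ y.2, ?_⟩
        have h7 : (⟨g⁻¹ * x * g, h6 ▸ y.2⟩ : M) = y := Subtype.ext h6.symm
        rw [h7]
        exact hy
      rw [dif_neg h, dif_neg h']
  rw [h4, h3, hr, h2]

end Pool.Agent.K4H10.PR
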