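import Pool.Agent.K4H10.PR.Spec

/-!
# Piece GAL: a Galois automorphism which fixes `ℚ_c` and raises the `p`-power roots of unity to the power `1 + p^(a-1)`
-/

set_option autoImplicit false

namespace Pool.Agent.K4H10.PR

open scoped BigOperators Classical

namespace GalAux

open IntermediateField Polynomial

/-- an embedding of `ℚ(e)` which raises the `n`-th roots of unity to the power `k` -/
theorem exists_sigma0 (n k : ℕ) (hn : 0 < n) (hk : Nat.Coprime k n) (e : ℂ)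
    (hprim : IsPrimitiveRoot e n) :
    ∃ σ : IntermediateField.adjoin ℚ {e} →+* ℂ,
      ∀ (w : ℂ) (hw : w ∈ IntermediateField.adjoin ℚ {e}), w ^ n = 1 → σ ⟨w, hw⟩ = w ^ k := by
  have : NeZero n := ⟨hn.ne'⟩
  have hint : IsIntegral ℚ e := (hprim.isIntegral hn).tower_top
  have hprimk : IsPrimitiveRoot (e ^ k) n := hprim.pow_of_coprime k hk
  have hroot : e ^ k ∈ (minpoly ℚ e).aroots ℂ := by
    rw [mem_aroots]
    refine ⟨minpoly.ne_zero hint, ?_⟩
    rw [← cyclotomic_eq_minpoly_rat hprim hn, cyclotomic_eq_minpoly_rat hprimk hn]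
    exact minpoly.aeval _ _
  refine ⟨((IntermediateField.algHomAdjoinIntegralEquiv ℚ hint).symm ⟨e ^ k, hroot⟩).toRingHom,
    fun w hw hwn => ?_⟩
  obtain ⟨j, _, rfl⟩ := hprim.eq_pow_of_pow_eq_one hwn
  have h1 : (⟨e ^ j, hw⟩ : IntermediateField.adjoin ℚ {e}) =
      (AdjoinSimple.gen ℚ e) ^ j := by
    apply Subtype.ext
    rfl
  rw [h1, map_pow]
  have h2 := IntermediateField.algHomAdjoinIntegralEquiv_symm_apply_gen ℚ hint ⟨e ^ k, hroot⟩
  have h3 : ((IntermediateField.algHomAdjoinIntegralEquiv ℚ hint).symm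
    ⟨e ^ k, hroot⟩).toRingHom (AdjoinSimple.gen ℚ e) = e ^ k := h2
  rw [h3, ← pow_mul, ← pow_mul, mul_comm]

/-- an embedding of `ℚ(e^{2πi/n})` which raises the `n`-th roots of unity to the power `k` -/
theorem exists_sigma (n k : ℕ) (hn : 0 < n) (hk : Nat.Coprime k n) :
    ∃ σ : cyc n →+* ℂ, ∀ (w : ℂ) (hw : w ∈ cyc n), w ^ n = 1 → σ ⟨w, hw⟩ = w ^ k :=
  exists_sigma0 n k hn hk _ (Complex.isPrimitiveRoot_exp n hn.ne')

theorem root_mem (n : ℕ) (hn : 0 < n) (w : ℂ) (hw : w ^ n = 1) : w ∈ cyc n := by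
  have : NeZero n := ⟨hn.ne'⟩
  have hprim : IsPrimitiveRoot (Complex.exp (2 * Real.pi * Complex.I / n)) n :=
    Complex.isPrimitiveRoot_exp n hn.ne'
  obtain ⟨j, _, rfl⟩ := hprim.eq_pow_of_pow_eq_one hw
  exact pow_mem (IntermediateField.mem_adjoin_simple_self ℚ _) j

theorem fixes (n c k : ℕ) (hc : 0 < c) (hcn : c ∣ n) (hn : 0 < n)
    (hk1 : k ≡ 1 [MOD c]) (σ : cyc n →+* ℂ)
    (hσ : ∀ (w : ℂ) (hw : w ∈ cyc n), w ^ n = 1 → σ ⟨w, hw⟩ = w ^ k) (v : ℂ) (hv : v ∈ cyc c)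
    (hv' : v ∈ cyc n) : σ ⟨v, hv'⟩ = v := by
  have hprim : IsPrimitiveRoot (Complex.exp (2 * Real.pi * Complex.I / c)) c :=
    Complex.isPrimitiveRoot_exp c hc.ne'
  obtain ⟨r, s, hrs⟩ := (IntermediateField.mem_adjoin_simple_iff ℚ v).1 hv
  generalize Complex.exp (2 * Real.pi * Complex.I / c) = e at hprim hrs
  have hen : e ^ n = 1 := by
    obtain ⟨d, rfl⟩ := hcn
    rw [pow_mul, hprim.pow_eq_one, one_pow]
  have hem : e ∈ cyc n := root_mem n hn e hen
  have hse : σ ⟨e, hem⟩ = e := by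
    rw [hσ e hem hen]
    have := pow_eq_pow_of_modEq hk1 hprim.pow_eq_one
    rw [this, pow_one]
  have h2 : ∀ (g : cyc n →+* ℂ) (q : ℚ[X]), g ⟨e, hem⟩ = e →
      g (eval₂ (Rat.castHom (cyc n)) ⟨e, hem⟩ q) = aeval e q := by
    intro g q hg
    rw [Polynomial.hom_eval₂, hg, Polynomial.aeval_def]
    congr 1
    exact Subsingleton.elim _ _
  have h1 : (⟨v, hv'⟩ : cyc n) = eval₂ (Rat.castHom (cyc n)) ⟨e, hem⟩ r /
      eval₂ (Rat.castHom (cyc n)) ⟨e, hem⟩ s := by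
    apply (algebraMap (cyc n) ℂ).injective
    rw [map_div₀, h2 (algebraMap (cyc n) ℂ) r rfl, h2 (algebraMap (cyc n) ℂ) s rfl]
    exact hrs
  rw [h1, map_div₀, h2 σ r hse, h2 σ s hse]
  exact hrs.symm

end GalAux

theorem gal : StGal := by
  intro p a N c hp ha hc hpc ι _ v ζ z hv hζ hsum
  obtain ⟨b, c', hc', hcb⟩ := Nat.exists_eq_pow_mul_and_not_dvd hc.ne' p hp.ne_one
  have hb : b < a := by
    by_contra h
    push Not at h
    exact hpc (((pow_dvd_pow p h).mul_right c').trans (dvd_of_eq hcb.symm))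
  have hc'0 : 0 < c' := by
    rcases Nat.eq_zero_or_pos c' with h | h
    · rw [h] at hc'
      exact absurd (dvd_zero p) hc'
    · exact h
  obtain ⟨M, hM⟩ : ∃ M, M = max N b := ⟨_, rfl⟩
  have hcop0 : Nat.Coprime c' p := ((hp.coprime_iff_not_dvd).2 hc').symm
  have hcop : Nat.Coprime c' (p ^ M) := hcop0.pow_right M
  obtain ⟨k, hk1, hk2⟩ := Nat.chineseRemainder hcop 1 (1 + p ^ (a - 1))
  obtain ⟨n, hn⟩ : ∃ n, n = c' * p ^ M := ⟨_, rfl⟩
  have hn0 : 0 < n := by rw [hn]; exact Nat.mul_pos hc'0 (pow_pos hp.pos _)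
  have hkn : Nat.Coprime k n := by
    rw [hn]
    refine Nat.Coprime.mul_right ?_ ?_
    · have := hk1.gcd_eq
      rw [Nat.gcd_one_left] at this
      exact this
    · have h1 := hk2.gcd_eq
      have h2 : Nat.Coprime (1 + p ^ (a - 1)) (p ^ M) := by
        refine Nat.Coprime.pow_right M ?_
        refine Nat.Coprime.symm ((hp.coprime_iff_not_dvd).2 fun h => ?_)
        have h3 : p ∣ p ^ (a - 1) := dvd_pow_self p (by omega)
        exact hp.one_lt.ne' (Nat.dvd_one.1 ((Nat.dvd_add_left h3).1 h))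
      rw [h2] at h1
      exact h1
  have hcn : c ∣ n := by
    rw [hcb, hn, mul_comm]
    exact Nat.mul_dvd_mul_left c' (pow_dvd_pow p (by rw [hM]; exact le_max_right _ _))
  have hkc : k ≡ 1 [MOD c] := by
    have h1 : k ≡ 1 [MOD p ^ b] := by
      have h2 : k ≡ 1 + p ^ (a - 1) [MOD p ^ b] :=
        hk2.of_dvd (pow_dvd_pow p (by rw [hM]; exact le_max_right _ _))
      have h3 : 1 + p ^ (a - 1) ≡ 1 [MOD p ^ b] := by
        have h4 : p ^ (a - 1) ≡ 0 [MOD p ^ b] :=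
          (Nat.modEq_zero_iff_dvd).2 (pow_dvd_pow p (by omega))
        exact (Nat.ModEq.add_left 1 h4)
      exact h2.trans h3
    rw [hcb]
    exact (Nat.modEq_and_modEq_iff_modEq_mul (hcop0.symm.pow_left b)).1 ⟨h1, hk1⟩
  obtain ⟨σ, hσ⟩ := GalAux.exists_sigma n k hn0 hkn
  have hvn : ∀ i, v i ∈ cyc n := by
    intro i
    have hle : cyc c ≤ cyc n := by
      unfold cyc
      rw [IntermediateField.adjoin_simple_le_iff]
      refine GalAux.root_mem n hn0 _ ?_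
      obtain ⟨d, hd⟩ := hcn
      rw [hd, pow_mul, (Complex.isPrimitiveRoot_exp c hc.ne').pow_eq_one, one_pow]
    exact hle (hv i)
  have hζM : ∀ i, ζ i ^ p ^ M = 1 := by
    intro i
    obtain ⟨d, hd⟩ := pow_dvd_pow p (show N ≤ M by rw [hM]; exact le_max_left _ _)
    rw [hd, pow_mul, hζ i, one_pow]
  have hζ1 : ∀ i, ζ i ^ n = 1 := by
    intro i
    rw [hn, mul_comm, pow_mul, hζM i, one_pow]
  have hζn : ∀ i, ζ i ∈ cyc n := fun i => GalAux.root_mem n hn0 _ (hζ1 i)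
  have hS : (∑ i, (⟨v i, hvn i⟩ : cyc n) * ⟨ζ i, hζn i⟩) = ((z : ℚ) : cyc n) := by
    apply Subtype.ext
    push_cast
    exact hsum
  have h1 := congrArg σ hS
  rw [map_sum, map_ratCast] at h1
  rw [← h1]
  refine Finset.sum_congr rfl fun i _ => ?_
  rw [map_mul, GalAux.fixes n c k hc hcn hn0 hkc σ hσ (v i) (hv i) (hvn i),
    hσ (ζ i) (hζn i) (hζ1 i), pow_eq_pow_of_modEq hk2 (hζM i)]

end Pool.Agent.K4H10.PR
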