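import Pool.Agent.K4H10.PR.Spec

namespace Pool.Agent.K4H10.PR
open scoped BigOperators Classical

/-- extension by zero -/
noncomputable def extz {G : Type} [Group G] (M : Subgroup G) (ψ : M → ℂ) (y : G) : ℂ :=
  if h : y ∈ M then ψ ⟨y, h⟩ else 0

theorem ind_def {G : Type} [Group G] [Fintype G] (M : Subgroup G) (ψ : M → ℂ) (x : G) :
    ind M ψ x = (Fintype.card M : ℂ)⁻¹ * ∑ g : G, extz M ψ (g⁻¹ * x * g) := rfl

theorem extz_conj {G : Type} [Group G] (M : Subgroup G) (ψ : M → ℂ)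
    (hψ : ∀ x y : M, ψ (y * x * y⁻¹) = ψ x) (m : G) (hm : m ∈ M) (y : G) :
    extz M ψ (m⁻¹ * y * m) = extz M ψ y := by
  unfold extz
  by_cases h : y ∈ M
  · have h' : m⁻¹ * y * m ∈ M := M.mul_mem (M.mul_mem (M.inv_mem hm) h) hm
    rw [dif_pos h, dif_pos h']
    have := hψ ⟨y, h⟩ (⟨m, hm⟩⁻¹)
    rw [← this]
    congr 1
    ext
    simp
  · have h' : m⁻¹ * y * m ∉ M := by
      intro h'
      apply h
      have := M.mul_mem (M.mul_mem hm h') (M.inv_mem hm)
      simpa [mul_assoc] using this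
    rw [dif_neg h, dif_neg h']

theorem ind_eq {G : Type} [Group G] [Fintype G] (M : Subgroup G) (ψ : M → ℂ)
    (hψ : ∀ x y : M, ψ (y * x * y⁻¹) = ψ x) (x : G) :
    ind M ψ x = ∑ c : G ⧸ M, extz M ψ (c.out⁻¹ * x * c.out) := by
  rw [ind_def]
  have h1 : ∑ g : G, extz M ψ (g⁻¹ * x * g) =
      ∑ q : (G ⧸ M) × M, extz M ψ (q.1.out⁻¹ * x * q.1.out) := by
    refine Fintype.sum_equiv (Subgroup.groupEquivQuotientProdSubgroup (s := M)) _ _ ?_
    intro g
    have h2 : (Subgroup.groupEquivQuotientProdSubgroup (s := M) g).1 = (QuotientGroup.mk g : G ⧸ M) := rfl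
    rw [h2]
    set c : G ⧸ M := QuotientGroup.mk g with hc
    have hm : c.out⁻¹ * g ∈ M := by
      rw [← QuotientGroup.eq, hc]
      exact QuotientGroup.out_eq' _
    have := extz_conj M ψ hψ (c.out⁻¹ * g) hm (c.out⁻¹ * x * c.out)
    rw [← this]
    congr 1
    group
  rw [h1, Fintype.sum_prod_type]
  simp only [Finset.sum_const, Finset.card_univ, nsmul_eq_mul]
  rw [← Finset.mul_sum, ← mul_assoc, inv_mul_cancel₀, one_mul]
  exact_mod_cast Fintype.card_ne_zero

/-- orbit sum -/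
theorem orb_sum {P : Type} [Group P] [Finite P] {X : Type} [Fintype X] [MulAction P X]
    (t : X → ℂ) (ht : ∀ (x : P) (c : X), t (x • c) = t c) :
    ∑ c : X, (Nat.card (MulAction.orbit P c) : ℂ)⁻¹ * t c =
      ∑ ω : MulAction.orbitRel.Quotient P X, t ω.out := by
  rw [← (MulAction.selfEquivSigmaOrbits P X).symm.sum_comp]
  rw [Fintype.sum_sigma]
  refine Finset.sum_congr rfl fun ω _ => ?_
  have h : ∀ y : MulAction.orbit P ω.out,
      (Nat.card (MulAction.orbit P ((MulAction.selfEquivSigmaOrbits P X).symm ⟨ω, y⟩)) : ℂ)⁻¹ *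
        t ((MulAction.selfEquivSigmaOrbits P X).symm ⟨ω, y⟩) =
      (Nat.card (MulAction.orbit P ω.out) : ℂ)⁻¹ * t ω.out := by
    intro y
    have h1 : (MulAction.selfEquivSigmaOrbits P X).symm ⟨ω, y⟩ = (y : X) := rfl
    rw [h1]
    obtain ⟨y, u, rfl⟩ := y
    show (Nat.card (MulAction.orbit P (u • ω.out)) : ℂ)⁻¹ * t (u • ω.out) = _
    rw [MulAction.orbit_smul, ht]
  rw [Finset.sum_congr rfl fun y _ => h y]
  rw [Finset.sum_const, Finset.card_univ, nsmul_eq_mul, ← mul_assoc, Nat.card_eq_fintype_card,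
    mul_inv_cancel₀, one_mul]
  haveI : Nonempty (MulAction.orbit P ω.out) := ⟨⟨ω.out, MulAction.mem_orbit_self _⟩⟩
  exact_mod_cast Fintype.card_ne_zero

/-- integrality of the multiplicities of linear characters in all pull-backs -/
def IntegralH {M : Type} [Group M] (ψ : M → ℂ) : Prop :=
  ∀ {Q : Type} [Group Q] [Fintype Q] (φ : Q →* M) (lam : Q →* ℂˣ),
    ∃ z : ℤ, (Fintype.card Q : ℂ)⁻¹ * ∑ x : Q, ψ (φ x) * ((lam x)⁻¹ : ℂˣ) = z

section
variable {G : Type} [Group G] [Fintype G] (M P : Subgroup G) (ψ : M → ℂ)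

/-- the sum over `P` belonging to the coset `c` -/
noncomputable def w (c : G ⧸ M) (lam : P →* ℂˣ) : ℂ :=
  ∑ x : P, extz M ψ (c.out⁻¹ * x * c.out) * ((lam x)⁻¹ : ℂˣ)

theorem w_smul (hψ : ∀ x y : M, ψ (y * x * y⁻¹) = ψ x) (u : P) (c : G ⧸ M) (lam : P →* ℂˣ) :
    w M P ψ (u • c) lam = w M P ψ c lam := by
  unfold w
  refine (Fintype.sum_equiv (MulAut.conj u).toEquiv _ _ ?_).symm
  intro x
  have h1 : ((MulAut.conj u).toEquiv x : P) = u * x * u⁻¹ := rfl
  rw [h1]
  have h2 : lam (u * x * u⁻¹) = lam x := by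
    rw [map_mul, map_mul, map_inv, mul_comm (lam u), mul_inv_cancel_right]
  rw [h2]
  congr 1
  have hm : c.out⁻¹ * (u : G)⁻¹ * (u • c).out ∈ M := by
    have h3 : ((u : G) • c) = QuotientGroup.mk ((u : G) * c.out) := by
      conv_lhs => rw [← QuotientGroup.out_eq' c]
      rfl
    have h4 : (QuotientGroup.mk ((u : G) * c.out) : G ⧸ M) = QuotientGroup.mk (u • c).out := by
      rw [QuotientGroup.out_eq']
      exact h3.symm
    have h5 := QuotientGroup.eq.mp h4
    simpa [mul_inv_rev, mul_assoc] using h5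
  rw [← extz_conj M ψ hψ _ hm]
  congr 1
  push_cast
  group

theorem mem_stab (c : G ⧸ M) (x : P) :
    x ∈ MulAction.stabilizer P c ↔ c.out⁻¹ * (x : G) * c.out ∈ M := by
  rw [MulAction.mem_stabilizer_iff]
  have h3 : (x • c) = QuotientGroup.mk ((x : G) * c.out) := by
    conv_lhs => rw [← QuotientGroup.out_eq' c]
    rfl
  rw [h3]
  constructor
  · intro h
    have h4 : (QuotientGroup.mk c.out : G ⧸ M) = QuotientGroup.mk ((x : G) * c.out) := by
      rw [h]; exact QuotientGroup.out_eq' c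
    have h5 := QuotientGroup.eq.mp h4
    simpa [mul_assoc] using h5
  · intro h
    have h4 : (QuotientGroup.mk c.out : G ⧸ M) = QuotientGroup.mk ((x : G) * c.out) := by
      rw [QuotientGroup.eq]
      simpa [mul_assoc] using h
    rw [← h4]; exact QuotientGroup.out_eq' c

/-- the homomorphism `stab c → M`, `x ↦ g⁻¹ x g` -/
noncomputable def cHom (c : G ⧸ M) : MulAction.stabilizer P c →* M where
  toFun x := ⟨c.out⁻¹ * ((x : P) : G) * c.out, (mem_stab M P c x).mp x.2⟩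
  map_one' := by ext; simp
  map_mul' x y := by
    ext
    push_cast
    group

theorem w_eq (c : G ⧸ M) (lam : P →* ℂˣ) :
    w M P ψ c lam = ∑ x : MulAction.stabilizer P c,
      ψ (cHom M P c x) * (((lam.comp (MulAction.stabilizer P c).subtype) x)⁻¹ : ℂˣ) := by
  unfold w
  have h1 : ∑ x : P, extz M ψ (c.out⁻¹ * x * c.out) * ((lam x)⁻¹ : ℂˣ) =
      ∑ x ∈ Finset.univ.filter (fun x : P => x ∈ MulAction.stabilizer P c),
        extz M ψ (c.out⁻¹ * x * c.out) * ((lam x)⁻¹ : ℂˣ) := by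
    rw [Finset.sum_filter]
    refine Finset.sum_congr rfl fun x _ => ?_
    split_ifs with h
    · rfl
    · rw [mem_stab] at h
      unfold extz
      rw [dif_neg h, zero_mul]
  rw [h1]
  rw [Finset.sum_subtype (p := fun x : P => x ∈ MulAction.stabilizer P c)
    (Finset.univ.filter (fun x : P => x ∈ MulAction.stabilizer P c)) (by intro x; simp)]
  refine Finset.sum_congr rfl fun x _ => ?_
  have h := (mem_stab M P c x).mp x.2
  unfold extz
  rw [dif_pos h]
  rfl

theorem exists_n (hI : IntegralH ψ) (c : G ⧸ M) (lam : P →* ℂˣ) :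
    ∃ z : ℤ, (Fintype.card (MulAction.stabilizer P c) : ℂ)⁻¹ * w M P ψ c lam = z := by
  rw [w_eq]
  exact hI (cHom M P c) (lam.comp (MulAction.stabilizer P c).subtype)

noncomputable def nn (hI : IntegralH ψ) (c : G ⧸ M) (lam : P →* ℂˣ) : ℤ :=
  (exists_n M P ψ hI c lam).choose

theorem nn_spec (hI : IntegralH ψ) (c : G ⧸ M) (lam : P →* ℂˣ) :
    ((nn M P ψ hI c lam : ℤ) : ℂ) =
      (Fintype.card (MulAction.stabilizer P c) : ℂ)⁻¹ * w M P ψ c lam :=
  (exists_n M P ψ hI c lam).choose_spec.symm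

theorem card_orb (c : G ⧸ M) :
    (Fintype.card P : ℂ)⁻¹ = (Nat.card (MulAction.orbit P c) : ℂ)⁻¹ *
      (Fintype.card (MulAction.stabilizer P c) : ℂ)⁻¹ := by
  rw [← mul_inv]
  congr 1
  have := MulAction.card_orbit_mul_card_stabilizer_eq_card_group P c
  rw [Nat.card_eq_fintype_card]
  exact_mod_cast this.symm

theorem nn_smul (hI : IntegralH ψ) (hψ : ∀ x y : M, ψ (y * x * y⁻¹) = ψ x) (u : P) (c : G ⧸ M)
    (lam : P →* ℂˣ) : nn M P ψ hI (u • c) lam = nn M P ψ hI c lam := by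
  have h : ((nn M P ψ hI (u • c) lam : ℤ) : ℂ) = ((nn M P ψ hI c lam : ℤ) : ℂ) := by
    rw [nn_spec, nn_spec, w_smul M P ψ hψ]
    congr 2
    have h1 := card_orb M P (u • c)
    have h2 := card_orb M P c
    rw [MulAction.orbit_smul] at h1
    have h3 : (Nat.card (MulAction.orbit P c) : ℂ)⁻¹ ≠ 0 := by
      apply inv_ne_zero
      haveI : Nonempty (MulAction.orbit P c) := ⟨⟨c, MulAction.mem_orbit_self _⟩⟩
      have : Nat.card (MulAction.orbit P c) ≠ 0 := Nat.card_pos.ne'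
      exact_mod_cast this
    have h4 := mul_left_cancel₀ h3 (h1.symm.trans h2)
    exact inv_injective h4
  exact_mod_cast h

/-- the multiplicity of `lam` in the restriction of the induced class function -/
noncomputable def FF (lam : P →* ℂˣ) : ℂ :=
  (Fintype.card P : ℂ)⁻¹ * ∑ x : P, ind M ψ x * ((lam x)⁻¹ : ℂˣ)

theorem FF_eq (hI : IntegralH ψ) (hψ : ∀ x y : M, ψ (y * x * y⁻¹) = ψ x) (lam : P →* ℂˣ) :
    FF M P ψ lam = ∑ c : G ⧸ M, (Nat.card (MulAction.orbit P c) : ℂ)⁻¹ * (nn M P ψ hI c lam : ℂ) := by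
  unfold FF
  simp_rw [ind_eq M ψ hψ, Finset.sum_mul]
  rw [Finset.sum_comm, Finset.mul_sum]
  refine Finset.sum_congr rfl fun c _ => ?_
  rw [nn_spec, ← mul_assoc, ← card_orb M P c]
  rfl

theorem FF_int (hI : IntegralH ψ) (hψ : ∀ x y : M, ψ (y * x * y⁻¹) = ψ x) (lam : P →* ℂˣ) :
    ∃ z : ℤ, FF M P ψ lam = z := by
  refine ⟨∑ ω : MulAction.orbitRel.Quotient P (G ⧸ M), nn M P ψ hI ω.out lam, ?_⟩
  rw [FF_eq M P ψ hI hψ, orb_sum (fun c => (nn M P ψ hI c lam : ℂ))
    (fun u c => by simp only [nn_smul M P ψ hI hψ])]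
  push_cast
  rfl

end

theorem main_abs (hGal : StGal) (hPow : StPow) (hTrans : StTrans) (hOrb : StOrb) (hFix : StFix)
    (p a : ℕ) (hp : p.Prime) (ha : 2 ≤ a) {G : Type} [Group G] [Fintype G] (M P : Subgroup G)
    (hPM : P ≤ M) (hPp : IsPGroup p P) (hMi : ¬ p ∣ M.index) (hPi : ¬ p ∣ P.relIndex M)
    (ψ : M → ℂ) (hψ : ∀ x y : M, ψ (y * x * y⁻¹) = ψ x) (hI : IntegralH ψ)
    (s : ℤ) (hs : (s : ℂ) = ∑ lam : P →* ℂˣ, if lam ^ p ^ (a - 1) ≠ 1 then
      (Fintype.card P : ℂ)⁻¹ * ∑ x : P, ψ ⟨x, hPM x.2⟩ * ((lam x)⁻¹ : ℂˣ) else 0)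
    (hsp : ¬ (p : ℤ) ∣ s) (c : ℕ) (hc : 0 < c) (hv : valueField (ind M ψ) ≤ cyc c) :
    p ^ a ∣ c := by
  by_contra hnc
  choose F hF using FF_int M P ψ hI hψ
  haveI : Fact p.Prime := ⟨hp⟩
  obtain ⟨N, hN⟩ := (IsPGroup.iff_card (p := p)).mp hPp
  have hlamN : ∀ (lam : P →* ℂˣ) (x : P), ((lam x)⁻¹ : ℂˣ) ^ p ^ N = 1 := by
    intro lam x
    rw [inv_pow, ← map_pow, ← hN, pow_card_eq_one', map_one, inv_one]
  -- Galois invariance
  have hinv : ∀ lam, F (lam ^ (1 + p ^ (a - 1))) = F lam := by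
    intro lam
    have h1 := hGal p a N c hp ha hc hnc
      (fun x : P => (Fintype.card P : ℂ)⁻¹ * ind M ψ x) (fun x : P => (((lam x)⁻¹ : ℂˣ) : ℂ))
      ((F lam : ℤ) : ℚ)
      (fun x => by
        refine (cyc c).mul_mem ?_ (hv ?_)
        · exact (cyc c).inv_mem (natCast_mem _ _)
        · exact IntermediateField.subset_adjoin _ _ ⟨x, rfl⟩)
      (fun x => by
        rw [← Units.val_pow_eq_pow_val, hlamN lam x, Units.val_one])
      (by
        rw [show (((F lam : ℤ) : ℚ) : ℂ) = ((F lam : ℤ) : ℂ) by push_cast; rfl, ← hF lam]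
        unfold FF
        rw [Finset.mul_sum]
        refine Finset.sum_congr rfl fun x _ => ?_
        ring)
    have h2 : ((F (lam ^ (1 + p ^ (a - 1))) : ℤ) : ℂ) = ((F lam : ℤ) : ℂ) := by
      rw [← hF (lam ^ (1 + p ^ (a - 1)))]
      rw [show (((F lam : ℤ) : ℚ) : ℂ) = ((F lam : ℤ) : ℂ) by push_cast; rfl] at h1
      rw [← h1]
      unfold FF
      rw [Finset.mul_sum]
      refine Finset.sum_congr rfl fun x _ => ?_
      rw [MonoidHom.pow_apply]
      push_cast
      rw [inv_pow]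
      ring
    exact_mod_cast h2
  have hPow' : (p : ℤ) ∣ ∑ lam : P →* ℂˣ, if lam ^ p ^ (a - 1) ≠ 1 then F lam else 0 := by
    convert hPow p a hp ha hPp F hinv
  -- orbit sum
  set t : G ⧸ M → ℤ := fun c => ∑ lam : P →* ℂˣ,
    if lam ^ p ^ (a - 1) ≠ 1 then nn M P ψ hI c lam else 0 with ht
  have h1 : ∀ (x : P) (c : G ⧸ M), t (x • c) = t c := by
    intro x c
    simp only [ht, nn_smul M P ψ hI hψ]
  have h2 : ∀ c ∈ MulAction.fixedPoints P (G ⧸ M), t c = s := by
    intro d hd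
    have hall : ∀ x ∈ P, d.out⁻¹ * x * d.out ∈ M := by
      intro x hx
      have h3 : (⟨x, hx⟩ : P) ∈ MulAction.stabilizer P d := by
        rw [MulAction.mem_stabilizer_iff]; exact hd _
      exact (mem_stab M P d _).mp h3
    have hcard : (Fintype.card (MulAction.stabilizer P d) : ℂ) = Fintype.card P := by
      have h4 : MulAction.stabilizer P d = ⊤ := by
        rw [eq_top_iff]; intro x _; rw [MulAction.mem_stabilizer_iff]; exact hd x
      rw [← Nat.card_eq_fintype_card, ← Nat.card_eq_fintype_card, h4]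
      norm_num
    have h5 := hFix p hp M P hPM hPp hPi ψ hψ (p ^ (a - 1)) d.out hall
    have h6 : ((t d : ℤ) : ℂ) = s := by
      have h9 : ((t d : ℤ) : ℂ) = ∑ lam : P →* ℂˣ, (if lam ^ p ^ (a - 1) ≠ 1 then
          ((nn M P ψ hI d lam : ℤ) : ℂ) else 0) := by
        simp only [ht]
        rw [Int.cast_sum]
        refine Finset.sum_congr rfl fun lam _ => ?_
        by_cases h : lam ^ p ^ (a - 1) = 1
        · simp [h]
        · rw [if_pos h, if_pos h]
      rw [hs, h9]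
      have h7 : ∀ lam : P →* ℂˣ, (if lam ^ p ^ (a - 1) ≠ 1 then
          ((nn M P ψ hI d lam : ℤ) : ℂ) else 0) = (Fintype.card P : ℂ)⁻¹ *
          (if lam ^ p ^ (a - 1) ≠ 1 then
            ∑ x : P, ψ ⟨d.out⁻¹ * x * d.out, hall x x.2⟩ * ((lam x)⁻¹ : ℂˣ) else 0) := by
        intro lam
        by_cases h : lam ^ p ^ (a - 1) = 1
        · simp [h]
        · rw [if_pos h, if_pos h, nn_spec, hcard]
          congr 1
          unfold w
          refine Finset.sum_congr rfl fun x _ => ?_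
          unfold extz
          rw [dif_pos (hall x x.2)]
      have h8 : ∀ lam : P →* ℂˣ, (if lam ^ p ^ (a - 1) ≠ 1 then
          (Fintype.card P : ℂ)⁻¹ * ∑ x : P, ψ ⟨x, hPM x.2⟩ * ((lam x)⁻¹ : ℂˣ) else 0) =
          (Fintype.card P : ℂ)⁻¹ * (if lam ^ p ^ (a - 1) ≠ 1 then
            ∑ x : P, ψ ⟨x, hPM x.2⟩ * ((lam x)⁻¹ : ℂˣ) else 0) := by
        intro lam
        by_cases h : lam ^ p ^ (a - 1) = 1
        · simp [h]
        · rw [if_pos h, if_pos h]
      rw [Finset.sum_congr rfl fun lam _ => h7 lam, Finset.sum_congr rfl fun lam _ => h8 lam,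
        ← Finset.mul_sum, ← Finset.mul_sum]
      congr 1
    exact_mod_cast h6
  have h3 : ∀ c ∉ MulAction.fixedPoints P (G ⧸ M), (p : ℤ) ∣ t c := by
    intro d hd
    have hT' := hTrans p a hp ha hPp (MulAction.stabilizer P d) ?_ (fun lam => nn M P ψ hI d lam) ?_
    · convert hT'
    · intro h4
      apply hd
      intro x
      rw [← MulAction.mem_stabilizer_iff, h4]
      trivial
    · intro lam lam' h5
      have h6 : ((nn M P ψ hI d lam : ℤ) : ℂ) = ((nn M P ψ hI d lam' : ℤ) : ℂ) := by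
        rw [nn_spec, nn_spec, w_eq, w_eq]
        congr 1
        refine Finset.sum_congr rfl fun x _ => ?_
        have h7 : (lam.comp (MulAction.stabilizer P d).subtype) x =
          (lam'.comp (MulAction.stabilizer P d).subtype) x := h5 x x.2
        rw [h7]
      exact_mod_cast h6
  obtain ⟨T, hT, hTd⟩ := hOrb p hp hPp t h1 s h2 h3
  have hTF : T = ∑ lam : P →* ℂˣ, if lam ^ p ^ (a - 1) ≠ 1 then F lam else 0 := by
    have h4 : (T : ℂ) = ((∑ lam : P →* ℂˣ, if lam ^ p ^ (a - 1) ≠ 1 then F lam else 0 : ℤ) : ℂ) := by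
      rw [hT, Int.cast_sum]
      simp only [ht]
      simp_rw [Int.cast_sum, Finset.mul_sum]
      rw [Finset.sum_comm]
      refine Finset.sum_congr rfl fun lam _ => ?_
      by_cases h : lam ^ p ^ (a - 1) = 1
      · simp [h]
      · rw [if_pos h, ← hF lam, FF_eq M P ψ hI hψ]
        refine Finset.sum_congr rfl fun c _ => ?_
        rw [if_pos h]
    exact_mod_cast h4
  rw [← hTF] at hPow'
  have h4 : (p : ℤ) ∣ (Fintype.card (G ⧸ M) : ℤ) * s := by
    have := dvd_sub hPow' hTd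
    simpa using this
  have h5 : (p : ℤ) ∣ (Fintype.card (G ⧸ M) : ℤ) ∨ (p : ℤ) ∣ s :=
    (Nat.prime_iff_prime_int.mp hp).dvd_or_dvd h4
  rcases h5 with h5 | h5
  · apply hMi
    rw [Subgroup.index, Nat.card_eq_fintype_card]
    exact_mod_cast h5
  · exact hsp h5

end Pool.Agent.K4H10.PR
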